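import Pool.Agent.Helper92_SBG.Rd

/-!
# Squad SBG, module IDX: the index of the radical of a character
-/

set_option autoImplicit false

namespace Pool.Agent.SBG.H41

open Sy

/-- Values of a character. -/
theorem char_eq {q : ℕ} (χ : (Fin 2 → ℤ) →+ ZMod q) (z : Fin 2 → ℤ) :
    χ z = χ ![1, 0] * (z 0 : ZMod q) + χ ![0, 1] * (z 1 : ZMod q) := by
  have h : z = z 0 • ![1, 0] + z 1 • ![0, 1] := by
    funext j; fin_cases j <;> simp
  conv_lhs => rw [h]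
  rw [map_add, map_zsmul, map_zsmul, zsmul_eq_mul, zsmul_eq_mul]
  ring

/-- The conditions for one block. -/
def cond {k q m : ℕ} (χ₀ χ₁ : ZMod q) (x : W k) (i : Fin k) : (Fin 14 → ZMod q) × (Fin 2 → ZMod m) :=
  let X : Sy → ZMod q := fun s => (x (Sum.inl (Sum.inl (i, s))) : ZMod q)
  (![χ₀ * X a1 + χ₁ * X b1, χ₀ * X b1 + χ₁ * X c1, X u1, X v1,
    χ₀ * X a2 + χ₁ * X b2, χ₀ * X b2 + χ₁ * X c2, X u2, X v2,
    χ₀ * X a3 + χ₁ * X b3, χ₀ * X b3 + χ₁ * X c3, X u3, X v3,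
    χ₀ * X yc + χ₁ * X yb, χ₀ * X qb + χ₁ * X qc],
   ![(x (Sum.inl (Sum.inl (i, yc))) : ZMod m), (x (Sum.inl (Sum.inl (i, qb))) : ZMod m)])

theorem cond_add {k q m : ℕ} (χ₀ χ₁ : ZMod q) (x y : W k) :
    cond (m := m) χ₀ χ₁ (x + y) = cond χ₀ χ₁ x + cond χ₀ χ₁ y := by
  funext i
  apply Prod.ext
  · funext j
    fin_cases j <;> simp [cond] <;> ring
  · funext j
    fin_cases j <;> simp [cond]

/-- The conditions as a homomorphism. -/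
def condH {k q : ℕ} (m : ℕ) (χ₀ χ₁ : ZMod q) :
    W k →+ (Fin k → (Fin 14 → ZMod q) × (Fin 2 → ZMod m)) :=
  AddMonoidHom.mk' (cond χ₀ χ₁) (cond_add χ₀ χ₁)

theorem ker_le {k q m : ℕ} (χ : (Fin 2 → ℤ) →+ ZMod q) (hm : m • χ ![0, 1] = 0) :
    (condH (k := k) m (χ ![1, 0]) (χ ![0, 1])).ker ≤ Rc χ := by
  intro x hx y
  have hx' : cond (m := m) (χ ![1, 0]) (χ ![0, 1]) x = 0 := hx
  rw [char_eq]
  have hz : ∀ i : Fin k, ∀ s : Sy, ((x (Sum.inl (Sum.inl (i, s))) : ℤ) : ZMod m) = 0 →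
      χ ![0, 1] * ((x (Sum.inl (Sum.inl (i, s))) : ℤ) : ZMod q) = 0 := by
    intro i s h
    obtain ⟨c, hc⟩ := (ZMod.intCast_zmod_eq_zero_iff_dvd _ m).1 h
    have h2 : χ ![0, 1] * (m : ZMod q) = 0 := by
      rw [mul_comm, ← nsmul_eq_mul]; exact hm
    rw [hc]
    push_cast
    rw [← mul_assoc, h2, zero_mul]
  have e0 : ((bz x y 0 : ℤ) : ZMod q) = ∑ i : Fin k,
      ((be0 (fun s => pv x (Sum.inl (i, s))) (fun s => pv y (Sum.inl (i, s))) : ℤ) : ZMod q) := by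
    rw [← Int.cast_sum]; rfl
  have e1 : ((bz x y 1 : ℤ) : ZMod q) = ∑ i : Fin k,
      ((be1 (fun s => pv x (Sum.inl (i, s))) (fun s => pv y (Sum.inl (i, s))) : ℤ) : ZMod q) := by
    rw [← Int.cast_sum]; rfl
  rw [e0, e1, Finset.mul_sum, Finset.mul_sum, ← Finset.sum_add_distrib]
  refine Finset.sum_eq_zero fun i _ => ?_
  have hi := congrFun hx' i
  have h1 : ∀ j, (cond (m := m) (χ ![1, 0]) (χ ![0, 1]) x i).1 j = 0 := fun j => by rw [hi]; rfl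
  have h2 : ∀ j, (cond (m := m) (χ ![1, 0]) (χ ![0, 1]) x i).2 j = 0 := fun j => by rw [hi]; rfl
  have g0 := h1 0
  have g1 := h1 1
  have g2 := h1 2
  have g3 := h1 3
  have g4 := h1 4
  have g5 := h1 5
  have g6 := h1 6
  have g7 := h1 7
  have g8 := h1 8
  have g9 := h1 9
  have g10 := h1 10
  have g11 := h1 11
  have g12 := h1 12
  have g13 := h1 13
  have k0 := hz i yc (h2 0)
  have k1 := hz i qb (h2 1)
  have r0 : χ ![1, 0] * ((x (Sum.inl (Sum.inl (i, a1))) : ℤ) : ZMod q) +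
    χ ![0, 1] * ((x (Sum.inl (Sum.inl (i, b1))) : ℤ) : ZMod q) = 0 := g0
  have r1 : χ ![1, 0] * ((x (Sum.inl (Sum.inl (i, b1))) : ℤ) : ZMod q) +
    χ ![0, 1] * ((x (Sum.inl (Sum.inl (i, c1))) : ℤ) : ZMod q) = 0 := g1
  have r2 : ((x (Sum.inl (Sum.inl (i, u1))) : ℤ) : ZMod q) = 0 := g2
  have r3 : ((x (Sum.inl (Sum.inl (i, v1))) : ℤ) : ZMod q) = 0 := g3
  have r4 : χ ![1, 0] * ((x (Sum.inl (Sum.inl (i, a2))) : ℤ) : ZMod q) +
    χ ![0, 1] * ((x (Sum.inl (Sum.inl (i, b2))) : ℤ) : ZMod q) = 0 := g4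
  have r5 : χ ![1, 0] * ((x (Sum.inl (Sum.inl (i, b2))) : ℤ) : ZMod q) +
    χ ![0, 1] * ((x (Sum.inl (Sum.inl (i, c2))) : ℤ) : ZMod q) = 0 := g5
  have r6 : ((x (Sum.inl (Sum.inl (i, u2))) : ℤ) : ZMod q) = 0 := g6
  have r7 : ((x (Sum.inl (Sum.inl (i, v2))) : ℤ) : ZMod q) = 0 := g7
  have r8 : χ ![1, 0] * ((x (Sum.inl (Sum.inl (i, a3))) : ℤ) : ZMod q) +
    χ ![0, 1] * ((x (Sum.inl (Sum.inl (i, b3))) : ℤ) : ZMod q) = 0 := g8
  have r9 : χ ![1, 0] * ((x (Sum.inl (Sum.inl (i, b3))) : ℤ) : ZMod q) +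
    χ ![0, 1] * ((x (Sum.inl (Sum.inl (i, c3))) : ℤ) : ZMod q) = 0 := g9
  have r10 : ((x (Sum.inl (Sum.inl (i, u3))) : ℤ) : ZMod q) = 0 := g10
  have r11 : ((x (Sum.inl (Sum.inl (i, v3))) : ℤ) : ZMod q) = 0 := g11
  have r12 : χ ![1, 0] * ((x (Sum.inl (Sum.inl (i, yc))) : ℤ) : ZMod q) +
    χ ![0, 1] * ((x (Sum.inl (Sum.inl (i, yb))) : ℤ) : ZMod q) = 0 := g12
  have r13 : χ ![1, 0] * ((x (Sum.inl (Sum.inl (i, qb))) : ℤ) : ZMod q) +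
    χ ![0, 1] * ((x (Sum.inl (Sum.inl (i, qc))) : ℤ) : ZMod q) = 0 := g13
  simp only [be0, be1, pv]
  push_cast
  linear_combination r0 * (y (Sum.inl (Sum.inl (i, u1))) : ZMod q) +
    r1 * (y (Sum.inl (Sum.inl (i, v1))) : ZMod q) -
    r2 * (χ ![1, 0] * (y (Sum.inl (Sum.inl (i, a1))) : ZMod q) +
      χ ![0, 1] * (y (Sum.inl (Sum.inl (i, b1))) : ZMod q)) -
    r3 * (χ ![1, 0] * (y (Sum.inl (Sum.inl (i, b1))) : ZMod q) +
      χ ![0, 1] * (y (Sum.inl (Sum.inl (i, c1))) : ZMod q)) +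
    r4 * (y (Sum.inl (Sum.inl (i, u2))) : ZMod q) +
    r5 * (y (Sum.inl (Sum.inl (i, v2))) : ZMod q) -
    r6 * (χ ![1, 0] * (y (Sum.inl (Sum.inl (i, a2))) : ZMod q) +
      χ ![0, 1] * (y (Sum.inl (Sum.inl (i, b2))) : ZMod q)) -
    r7 * (χ ![1, 0] * (y (Sum.inl (Sum.inl (i, b2))) : ZMod q) +
      χ ![0, 1] * (y (Sum.inl (Sum.inl (i, c2))) : ZMod q)) +
    r8 * (y (Sum.inl (Sum.inl (i, u3))) : ZMod q) +
    r9 * (y (Sum.inl (Sum.inl (i, v3))) : ZMod q) -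
    r10 * (χ ![1, 0] * (y (Sum.inl (Sum.inl (i, a3))) : ZMod q) +
      χ ![0, 1] * (y (Sum.inl (Sum.inl (i, b3))) : ZMod q)) -
    r11 * (χ ![1, 0] * (y (Sum.inl (Sum.inl (i, b3))) : ZMod q) +
      χ ![0, 1] * (y (Sum.inl (Sum.inl (i, c3))) : ZMod q)) +
    r12 * (y (Sum.inl (Sum.inl (i, qb))) : ZMod q) +
    k0 * (y (Sum.inl (Sum.inl (i, qc))) : ZMod q) -
    k1 * (y (Sum.inl (Sum.inl (i, yb))) : ZMod q) -
    r13 * (y (Sum.inl (Sum.inl (i, yc))) : ZMod q)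

theorem index_le {k q m : ℕ} (hq : 0 < q) (hm0 : 0 < m) (χ : (Fin 2 → ℤ) →+ ZMod q)
    (hm : m • χ ![0, 1] = 0) :
    (Rc (k := k) χ).index ≠ 0 ∧ (Rc (k := k) χ).index ≤ q ^ (14 * k) * m ^ (2 * k) := by
  have : NeZero q := ⟨hq.ne'⟩
  have : NeZero m := ⟨hm0.ne'⟩
  have h1 := ker_le (k := k) χ hm
  set f := condH (k := k) m (χ ![1, 0]) (χ ![0, 1]) with hf
  have h2 : f.ker.index = Nat.card f.range := AddSubgroup.index_ker f
  have h3 : Nat.card f.range ≤ q ^ (14 * k) * m ^ (2 * k) := by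
    calc Nat.card f.range ≤ Nat.card (Fin k → (Fin 14 → ZMod q) × (Fin 2 → ZMod m)) :=
          Nat.card_le_card_of_injective _ Subtype.val_injective
      _ = q ^ (14 * k) * m ^ (2 * k) := by
          simp only [Nat.card_eq_fintype_card, Fintype.card_fun, Fintype.card_prod, Fintype.card_fin,
            ZMod.card]
          rw [mul_pow, ← pow_mul, ← pow_mul]
  have h4 : f.ker.index ≠ 0 := by
    rw [h2]
    exact Nat.card_pos.ne'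
  have h5 : (Rc (k := k) χ).index ≤ f.ker.index := 
    Nat.le_of_dvd (Nat.pos_of_ne_zero h4) (AddSubgroup.index_dvd_of_le h1)
  refine ⟨?_, h5.trans (h2 ▸ h3)⟩
  intro h0
  have := AddSubgroup.index_dvd_of_le h1
  rw [h0] at this
  exact h4 (Nat.eq_zero_of_zero_dvd this)

/-- IDX. -/
theorem idx : IdxStmt := by
  intro k q hq χ
  have h1 : q • χ ![0, 1] = 0 := by
    rw [nsmul_eq_mul, ZMod.natCast_self, zero_mul]
  obtain ⟨h2, h3⟩ := index_le (k := k) hq hq χ h1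
  refine ⟨h2, ?_, fun g hg hχ => (index_le hq hg χ hχ).2⟩
  rw [← pow_add] at h3
  have e : 14 * k + 2 * k = 16 * k := by ring
  rwa [e] at h3

end Pool.Agent.SBG.H41
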