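import Pool.Agent.Helper92_SBG.Rd
import Pool.Agent.Helper92_SBG.Str

/-!
RPA: two independent pairs modulo a prime.
-/

namespace Pool.Agent.SBG.H41

open Pool.Agent.SBG Sy

/-- Reduction of an integer vector modulo `p`. -/
def redv (p : ℕ) {ι : Type} (x : ι → ℤ) : ι → ZMod p := fun i => (x i : ZMod p)

/-- A saturated lattice has a basis which stays independent modulo `p`. -/
lemma basis_mod {ι : Type} [Fintype ι] [DecidableEq ι] (F : AddSubgroup (ι → ℤ)) (hF : sat F = F)
    (p : ℕ) [Fact p.Prime] :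
    ∃ (r : ℕ) (v : Fin r → (ι → ℤ)), dm (LQ F) ≤ r ∧ (∀ i, v i ∈ F) ∧
      LinearIndependent (ZMod p) (fun i => redv p (v i)) := by
  obtain ⟨r, b⟩ := Submodule.basisOfPid (Pi.basisFun ℤ ι) (AddSubgroup.toIntSubmodule F)
  refine ⟨r, fun i => (b i : ι → ℤ), ?_, fun i => (b i).2, ?_⟩
  · have h1 : LQ F ≤ Submodule.span ℚ (Set.range fun i => castv (b i : ι → ℤ)) := by
      rw [LQ, Submodule.span_le]
      rintro _ ⟨x, hx, rfl⟩
      have h2 := b.sum_repr ⟨x, hx⟩
      have h3 : x = ∑ i, (b.repr ⟨x, hx⟩ i) • (b i : ι → ℤ) := by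
        have := congrArg (Subtype.val) h2
        rw [AddSubmonoidClass.coe_finsetSum] at this
        exact this.symm
      have h4 : castv x = ∑ i, ((b.repr ⟨x, hx⟩ i : ℤ) : ℚ) • castv (b i : ι → ℤ) := by
        funext c
        have h5 := congrFun h3 c
        simp only [castv, Finset.sum_apply, Pi.smul_apply, smul_eq_mul] at h5 ⊢
        exact_mod_cast h5
      rw [h4]
      exact Submodule.sum_mem _ fun i _ => Submodule.smul_mem _ _ (Submodule.subset_span ⟨i, rfl⟩)
    calc dm (LQ F) ≤ dm (Submodule.span ℚ (Set.range fun i => castv (b i : ι → ℤ))) :=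
          Submodule.finrank_mono h1
      _ ≤ Fintype.card (Fin r) := finrank_range_le_card _
      _ = r := Fintype.card_fin r
  · rw [Fintype.linearIndependent_iff]
    intro g hg i
    have hp : p ≠ 0 := (Fact.out : p.Prime).ne_zero
    have h1 : ∀ c : ι, ∃ w : ℤ, ∑ i, ((g i).val : ℤ) * (b i : ι → ℤ) c = p * w := by
      intro c
      have h2 := congrFun hg c
      simp only [Finset.sum_apply, Pi.smul_apply, smul_eq_mul, redv, Pi.zero_apply] at h2
      have h3 : ((∑ i, ((g i).val : ℤ) * (b i : ι → ℤ) c : ℤ) : ZMod p) = 0 := by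
        rw [Int.cast_sum, ← h2]
        refine Finset.sum_congr rfl fun i _ => ?_
        rw [Int.cast_mul, Int.cast_natCast, ZMod.natCast_zmod_val]
      exact (ZMod.intCast_zmod_eq_zero_iff_dvd _ _).mp h3
    choose w hw using h1
    have h2 : ((p : ℕ) • w : ι → ℤ) = ∑ i, ((g i).val : ℤ) • (b i : ι → ℤ) := by
      funext c
      rw [Finset.sum_apply]
      simp only [Pi.smul_apply, smul_eq_mul, nsmul_eq_mul]
      exact (hw c).symm
    have h3 : w ∈ F := by
      rw [← hF]
      refine ⟨p, Nat.pos_of_ne_zero hp, ?_⟩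
      rw [h2]
      exact AddSubgroup.sum_mem _ fun i _ => F.zsmul_mem (b i).2 _
    have h4 : ((p : ℕ) • (⟨w, h3⟩ : AddSubgroup.toIntSubmodule F)) =
        ∑ i, ((g i).val : ℤ) • b i := by
      apply Subtype.ext
      rw [AddSubmonoidClass.coe_finsetSum]
      exact h2
    have h5 := congrArg (fun z => b.repr z i) h4
    simp only [map_nsmul, map_sum, map_smul, Module.Basis.repr_self, Finsupp.coe_finsetSum,
      Finset.sum_apply, Finsupp.smul_apply, Finsupp.single_apply, smul_eq_mul, mul_ite, mul_one,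
      mul_zero, Finset.sum_ite_eq', Finset.mem_univ, if_true] at h5
    have h6 : ((g i).val : ℤ) = (p : ℤ) * b.repr ⟨w, h3⟩ i := by
      rw [← h5]; simp
    have h7 : (((g i).val : ℤ) : ZMod p) = 0 := by rw [h6]; simp
    rwa [Int.cast_natCast, ZMod.natCast_zmod_val] at h7

/-- Two families of independent vectors with many members have a nonzero two by two minor of
their matrix of products. -/
lemma minor_ne {K κ : Type} [Field K] [Fintype κ] [DecidableEq κ] {r s : ℕ}
    (X : Fin r → κ → K) (Y : Fin s → κ → K) (hX : LinearIndependent K X)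
    (hY : LinearIndependent K Y) (h : Fintype.card κ + 2 ≤ r + s) :
    ∃ (i i' : Fin r) (j j' : Fin s), (∑ c, X i c * Y j c) * (∑ c, X i' c * Y j' c) -
      (∑ c, X i c * Y j' c) * (∑ c, X i' c * Y j c) ≠ 0 := by
  by_contra hcon
  push Not at hcon
  -- the bilinear values
  set B : Fin r → Fin s → K := fun i j => ∑ c, X i c * Y j c with hB
  have hB2 : ∀ i i' j j', B i j * B i' j' = B i j' * B i' j := fun i i' j j' =>
    sub_eq_zero.mp (hcon i i' j j')
  obtain ⟨f, hf⟩ : ∃ f : (Fin r → K) →ₗ[K] K, ∀ c, f c = 0 → ∀ j, ∑ i, c i * B i j = 0 := by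
    by_cases h0 : ∃ i j, B i j ≠ 0
    · obtain ⟨i0, j0, h1⟩ := h0
      refine ⟨{ toFun := fun c => ∑ i, c i * B i j0
                map_add' := fun c c' => by
                  rw [← Finset.sum_add_distrib]
                  exact Finset.sum_congr rfl fun i _ => by rw [Pi.add_apply, add_mul]
                map_smul' := fun a c => by
                  rw [RingHom.id_apply, smul_eq_mul, Finset.mul_sum]
                  exact Finset.sum_congr rfl fun i _ => by rw [Pi.smul_apply, smul_eq_mul, mul_assoc] },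
        fun c hc j => ?_⟩
      have hc' : ∑ i, c i * B i j0 = 0 := hc
      have h2 : (∑ i, c i * B i j) * B i0 j0 = (∑ i, c i * B i j0) * B i0 j := by
        rw [Finset.sum_mul, Finset.sum_mul]
        refine Finset.sum_congr rfl fun i _ => ?_
        rw [mul_assoc, hB2 i i0 j j0, mul_assoc]
      rw [hc', zero_mul] at h2
      exact (mul_eq_zero.mp h2).resolve_right h1
    · push Not at h0
      exact ⟨0, fun c _ j => Finset.sum_eq_zero fun i _ => by rw [h0, mul_zero]⟩
  set M : Matrix (Fin s) κ K := Matrix.of Y with hM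
  have hrank : M.rank = s := by
    have := LinearIndependent.rank_matrix (M := M) hY
    rwa [Fintype.card_fin] at this
  have hk1 : Module.finrank K (LinearMap.ker M.mulVecLin) + s = Fintype.card κ := by
    have h1 := LinearMap.finrank_range_add_finrank_ker M.mulVecLin
    rw [Module.finrank_fintype_fun_eq_card] at h1
    have h2 : Module.finrank K (LinearMap.range M.mulVecLin) = s := hrank
    rw [h2] at h1
    rw [← h1, add_comm]
  have hk2 : r ≤ Module.finrank K (LinearMap.ker f) + 1 := by
    have h1 := LinearMap.finrank_range_add_finrank_ker f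
    rw [Module.finrank_fintype_fun_eq_card, Fintype.card_fin] at h1
    have h2 : Module.finrank K (LinearMap.range f) ≤ 1 := by
      calc Module.finrank K (LinearMap.range f) ≤ Module.finrank K K := Submodule.finrank_le _
        _ = 1 := Module.finrank_self K
    omega
  -- the injective map
  let Φ : (LinearMap.ker f) →ₗ[K] (LinearMap.ker M.mulVecLin) :=
    { toFun := fun c => ⟨∑ i, c.1 i • X i, by
        rw [LinearMap.mem_ker]
        funext j
        rw [Matrix.mulVecLin_apply, Matrix.mulVec, dotProduct]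
        have h1 := hf c.1 (LinearMap.mem_ker.mp c.2) j
        simp only [hM, Matrix.of_apply, Finset.sum_apply, Pi.smul_apply, smul_eq_mul,
          Pi.zero_apply]
        rw [← h1]
        simp only [hB, Finset.mul_sum]
        rw [Finset.sum_comm]
        refine Finset.sum_congr rfl fun i _ => Finset.sum_congr rfl fun c' _ => ?_
        ring⟩
      map_add' := fun c c' => by
        apply Subtype.ext
        simp only [Submodule.coe_add, Pi.add_apply, add_smul, Finset.sum_add_distrib]
      map_smul' := fun a c => by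
        apply Subtype.ext
        simp only [RingHom.id_apply, Submodule.coe_smul, Pi.smul_apply, smul_eq_mul,
          Finset.smul_sum, mul_smul] }
  have hΦ : Function.Injective Φ := by
    rw [← LinearMap.ker_eq_bot, LinearMap.ker_eq_bot']
    intro c hc
    have h1 : ∑ i, c.1 i • X i = 0 := congrArg Subtype.val hc
    have h2 := Fintype.linearIndependent_iff.mp hX c.1 h1
    apply Subtype.ext
    funext i
    exact h2 i
  have h3 := LinearMap.finrank_le_finrank_of_injective hΦ
  omega

/-- Integer vectors in a rational subspace. -/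
def inS {ι : Type} (A : Submodule ℚ (ι → ℚ)) : AddSubgroup (ι → ℤ) where
  carrier := {x | castv x ∈ A}
  zero_mem' := by
    change castv (0 : ι → ℤ) ∈ A
    rw [castv_zero]; exact A.zero_mem
  add_mem' := by
    intro x y hx hy
    change castv (x + y) ∈ A
    rw [castv_add]; exact A.add_mem hx hy
  neg_mem' := by
    intro x hx
    change castv (-x) ∈ A
    rw [castv_neg]; exact A.neg_mem hx

lemma mem_inS {ι : Type} {A : Submodule ℚ (ι → ℚ)} {x : ι → ℤ} : x ∈ inS A ↔ castv x ∈ A :=
  Iff.rfl

lemma sat_inf_inS {ι : Type} (F : AddSubgroup (ι → ℤ)) (hF : sat F = F)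
    (A : Submodule ℚ (ι → ℚ)) : sat (F ⊓ inS A) = F ⊓ inS A := by
  apply le_antisymm _ (le_sat _)
  rintro x ⟨n, hn, hx1, hx2⟩
  refine ⟨?_, ?_⟩
  · rw [← hF]; exact ⟨n, hn, hx1⟩
  · change castv (n • x) ∈ A at hx2
    rw [castv_nsmul] at hx2
    change castv x ∈ A
    have hn' : (n : ℚ) ≠ 0 := by exact_mod_cast hn.ne'
    have := A.smul_mem ((n : ℚ)⁻¹) hx2
    rwa [smul_smul, inv_mul_cancel₀ hn', one_smul] at this

lemma LQ_inf_le {ι : Type} (F : AddSubgroup (ι → ℤ)) (A : Submodule ℚ (ι → ℚ)) :
    LQ F ⊓ A ≤ LQ (F ⊓ inS A) := by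
  rintro y ⟨hy1, hy2⟩
  obtain ⟨N, hN, l, hl, h1⟩ := H92.LQ_den F hy1
  have hN' : (N : ℚ) ≠ 0 := by exact_mod_cast hN.ne'
  have h2 : castv l ∈ LQ (F ⊓ inS A) := by
    refine Submodule.subset_span ⟨l, ⟨hl, ?_⟩, rfl⟩
    change castv l ∈ A
    rw [← h1]
    exact A.smul_mem _ hy2
  have h3 : y = (N : ℚ)⁻¹ • castv l := by
    rw [← h1, smul_smul, inv_mul_cancel₀ hN', one_smul]
  rw [h3]
  exact Submodule.smul_mem _ _ h2

/-- A family of vectors of `F` in a rational subspace, independent modulo `p`. -/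
lemma family {ι : Type} [Fintype ι] [DecidableEq ι] (F : AddSubgroup (ι → ℤ)) (hF : sat F = F)
    (A : Submodule ℚ (ι → ℚ)) (p : ℕ) [Fact p.Prime] :
    ∃ (r : ℕ) (v : Fin r → (ι → ℤ)), dm (LQ F ⊓ A : Submodule ℚ (ι → ℚ)) ≤ r ∧
      (∀ i, v i ∈ F ∧ castv (v i) ∈ A) ∧
      LinearIndependent (ZMod p) (fun i => redv p (v i)) := by
  obtain ⟨r, v, h1, h2, h3⟩ := basis_mod (F ⊓ inS A) (sat_inf_inS F hF A) p
  exact ⟨r, v, (Submodule.finrank_mono (LQ_inf_le F A)).trans h1, fun i => h2 i, h3⟩

/-- Integer vectors in `Rad`. -/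
lemma rad_int {k : ℕ} {l0 l1 : ℤ} (hl : IsCoprime l0 l1) {x : V k}
    (hx : castv x ∈ Rad k l0 l1) :
    ∃ t : Fin k → ℤ, (∀ i, x (Sum.inl (i, a3)) = t i * l1 ^ 2) ∧
      (∀ i, x (Sum.inl (i, b3)) = -(t i * l0 * l1)) ∧
      (∀ i, x (Sum.inl (i, c3)) = t i * l0 ^ 2) ∧
      (∀ i s, s ≠ a3 → s ≠ b3 → s ≠ c3 → x (Sum.inl (i, s)) = 0) ∧
      (∀ j, x (Sum.inr j) = 0) := by
  obtain ⟨t, ht⟩ := hx
  obtain ⟨u, v, huv⟩ := hl
  have hc : ∀ c, ((x c : ℤ) : ℚ) = radv l0 l1 t c := fun c => congrFun ht c
  have ha : ∀ i, ((x (Sum.inl (i, a3)) : ℤ) : ℚ) = t i * l1 ^ 2 := fun i => hc _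
  have hb : ∀ i, ((x (Sum.inl (i, b3)) : ℤ) : ℚ) = -(t i * l0 * l1) := fun i => hc _
  have hcc : ∀ i, ((x (Sum.inl (i, c3)) : ℤ) : ℚ) = t i * l0 ^ 2 := fun i => hc _
  have huv' : (u : ℚ) * l0 + v * l1 = 1 := by exact_mod_cast huv
  let τ : Fin k → ℤ := fun i => u ^ 2 * x (Sum.inl (i, c3)) - 2 * u * v * x (Sum.inl (i, b3)) +
    v ^ 2 * x (Sum.inl (i, a3))
  have hτ : ∀ i, ((τ i : ℤ) : ℚ) = t i := by
    intro i
    simp only [τ]
    push_cast
    rw [ha, hb, hcc]
    calc (u : ℚ) ^ 2 * (t i * l0 ^ 2) - 2 * u * v * -(t i * l0 * l1) + v ^ 2 * (t i * l1 ^ 2)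
        = t i * (u * l0 + v * l1) ^ 2 := by ring
      _ = t i := by rw [huv', one_pow, mul_one]
  refine ⟨τ, fun i => ?_, fun i => ?_, fun i => ?_, fun i s h1 h2 h3 => ?_, fun j => ?_⟩
  · have := ha i
    rw [← hτ i] at this
    exact_mod_cast this
  · have := hb i
    rw [← hτ i] at this
    exact_mod_cast this
  · have := hcc i
    rw [← hτ i] at this
    exact_mod_cast this
  · have h4 : ((x (Sum.inl (i, s)) : ℤ) : ℚ) = 0 := by
      rw [hc]
      cases s <;> first | rfl | exact absurd rfl h1 | exact absurd rfl h2 | exact absurd rfl h3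
    exact_mod_cast h4
  · have h4 : ((x (Sum.inr j) : ℤ) : ℚ) = 0 := hc _
    exact_mod_cast h4

/-- The coefficients of the functional of a vector. -/
def cof (p : ℕ) {k : ℕ} (m0 m1 : ℤ) (x : V k) : (Fin k ⊕ Fin k) → ZMod p
  | Sum.inl i => (m0 : ZMod p) * (x (Sum.inl (i, a3)) : ZMod p) +
      (m1 : ZMod p) * (x (Sum.inl (i, b3)) : ZMod p)
  | Sum.inr i => (m0 : ZMod p) * (x (Sum.inl (i, b3)) : ZMod p) +
      (m1 : ZMod p) * (x (Sum.inl (i, c3)) : ZMod p)

/-- The coordinates `u3`, `v3`. -/
def cuv (p : ℕ) {k : ℕ} (y : V k) : (Fin k ⊕ Fin k) → ZMod p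
  | Sum.inl i => (y (Sum.inl (i, u3)) : ZMod p)
  | Sum.inr i => (y (Sum.inl (i, v3)) : ZMod p)

lemma form_eq {k : ℕ} (p : ℕ) (m0 m1 : ℤ) {x y : V k}
    (hx : ∀ i s, s ≠ a3 → s ≠ b3 → s ≠ c3 → x (Sum.inl (i, s)) = 0) :
    ((m0 * bf0 x y + m1 * bf1 x y : ℤ) : ZMod p) = ∑ c, cof p m0 m1 x c * cuv p y c := by
  have h0 : bf0 x y = ∑ i : Fin k, (x (Sum.inl (i, a3)) * y (Sum.inl (i, u3)) +
      x (Sum.inl (i, b3)) * y (Sum.inl (i, v3))) := by
    refine Finset.sum_congr rfl fun i _ => ?_
    simp only [be0]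
    rw [hx i a1 (by decide) (by decide) (by decide), hx i u1 (by decide) (by decide) (by decide),
      hx i a2 (by decide) (by decide) (by decide), hx i u2 (by decide) (by decide) (by decide),
      hx i u3 (by decide) (by decide) (by decide), hx i b1 (by decide) (by decide) (by decide),
      hx i v1 (by decide) (by decide) (by decide), hx i b2 (by decide) (by decide) (by decide),
      hx i v2 (by decide) (by decide) (by decide), hx i v3 (by decide) (by decide) (by decide),
      hx i yc (by decide) (by decide) (by decide), hx i qb (by decide) (by decide) (by decide)]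
    ring
  have h1 : bf1 x y = ∑ i : Fin k, (x (Sum.inl (i, b3)) * y (Sum.inl (i, u3)) +
      x (Sum.inl (i, c3)) * y (Sum.inl (i, v3))) := by
    refine Finset.sum_congr rfl fun i _ => ?_
    simp only [be1]
    rw [hx i c1 (by decide) (by decide) (by decide), hx i u1 (by decide) (by decide) (by decide),
      hx i c2 (by decide) (by decide) (by decide), hx i u2 (by decide) (by decide) (by decide),
      hx i u3 (by decide) (by decide) (by decide), hx i b1 (by decide) (by decide) (by decide),
      hx i v1 (by decide) (by decide) (by decide), hx i b2 (by decide) (by decide) (by decide),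
      hx i v2 (by decide) (by decide) (by decide), hx i v3 (by decide) (by decide) (by decide),
      hx i yc (by decide) (by decide) (by decide), hx i qb (by decide) (by decide) (by decide),
      hx i yb (by decide) (by decide) (by decide), hx i qc (by decide) (by decide) (by decide)]
    ring
  rw [h0, h1, Fintype.sum_sum_type]
  simp only [cof, cuv]
  push_cast
  rw [Finset.mul_sum, Finset.mul_sum, ← Finset.sum_add_distrib, ← Finset.sum_add_distrib]
  refine Finset.sum_congr rfl fun i _ => ?_
  ring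

/-- RPA -/
theorem rpa : RpaStmt := by
  intro k l0 l1 F hk hl hF h1 h2 m0 m1 hm p hp
  have : Fact p.Prime := ⟨hp⟩
  classical
  obtain ⟨r, x, hr, hx, hxi⟩ := family F hF (Rad k l0 l1) p
  obtain ⟨s, y, hs, hy, hyi⟩ := family F hF (VS fun c => isS u3 c ∨ isS v3 c) p
  have hxr : ∀ i, _ := fun i => rad_int hl (hx i).2
  choose t hta htb htc hts htj using hxr
  have hy0 : ∀ i c, ¬ (isS u3 c ∨ isS v3 c) → y i c = 0 := by
    intro i c hc
    have := (hy i).2 c hc
    simp only [castv] at this
    exact_mod_cast this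
  have hys : ∀ i j s, s ≠ u3 → s ≠ v3 → y i (Sum.inl (j, s)) = 0 := by
    intro i j s h3 h4
    refine hy0 i _ ?_
    rintro (⟨j', h5⟩ | ⟨j', h5⟩)
    · exact h3 (Prod.ext_iff.mp (Sum.inl.inj h5)).2
    · exact h4 (Prod.ext_iff.mp (Sum.inl.inj h5)).2
  have hyr : ∀ i j, y i (Sum.inr j) = 0 := by
    intro i j
    refine hy0 i _ ?_
    rintro (⟨j', h5⟩ | ⟨j', h5⟩) <;> exact absurd h5 (by simp)
  -- independence of the functionals
  obtain ⟨u, v, huv⟩ := hl
  have huv' : (u : ZMod p) * l0 + v * l1 = 1 := by exact_mod_cast congrArg (Int.cast : ℤ → ZMod p) huv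
  have hm' : (m0 : ZMod p) * l1 - m1 * l0 = 1 := by exact_mod_cast congrArg (Int.cast : ℤ → ZMod p) hm
  have hX : LinearIndependent (ZMod p) (fun i => cof p m0 m1 (x i)) := by
    rw [Fintype.linearIndependent_iff] at hxi ⊢
    intro g hg
    apply hxi
    have hT : ∀ j : Fin k, ∑ i, g i * (t i j : ZMod p) = 0 := by
      intro j
      have e1 := congrFun hg (Sum.inl j)
      have e2 := congrFun hg (Sum.inr j)
      simp only [Finset.sum_apply, Pi.smul_apply, smul_eq_mul, cof, Pi.zero_apply, hta, htb,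
        htc] at e1 e2
      push_cast at e1 e2
      have e1' : (∑ i, g i * (t i j : ZMod p)) * l1 = 0 := by
        rw [← e1, Finset.sum_mul]
        refine Finset.sum_congr rfl fun i _ => ?_
        linear_combination (-(g i * t i j * l1) : ZMod p) * hm'
      have e2' : (∑ i, g i * (t i j : ZMod p)) * l0 = 0 := by
        have : (∑ i, g i * (t i j : ZMod p)) * l0 = -0 := by
          rw [← e2, Finset.sum_mul, ← Finset.sum_neg_distrib]
          refine Finset.sum_congr rfl fun i _ => ?_
          linear_combination (-(g i * t i j * l0) : ZMod p) * hm'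
        simpa using this
      linear_combination (-(∑ i, g i * (t i j : ZMod p))) * huv' + (v : ZMod p) * e1' +
        (u : ZMod p) * e2'
    funext c
    rw [Finset.sum_apply]
    simp only [Pi.smul_apply, smul_eq_mul, redv, Pi.zero_apply]
    rcases c with ⟨j, s'⟩ | j
    · by_cases c1 : s' = a3
      · subst c1
        simp only [hta]
        push_cast
        have : ∑ i, g i * ((t i j : ZMod p) * (l1 : ZMod p) ^ 2) =
            (∑ i, g i * (t i j : ZMod p)) * (l1 : ZMod p) ^ 2 := by
          rw [Finset.sum_mul]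
          exact Finset.sum_congr rfl fun i _ => by ring
        rw [this, hT, zero_mul]
      by_cases c2 : s' = b3
      · subst c2
        simp only [htb]
        push_cast
        have : ∑ i, g i * (-((t i j : ZMod p) * (l0 : ZMod p) * (l1 : ZMod p))) =
            (∑ i, g i * (t i j : ZMod p)) * (-((l0 : ZMod p) * l1)) := by
          rw [Finset.sum_mul]
          exact Finset.sum_congr rfl fun i _ => by ring
        rw [this, hT, zero_mul]
      by_cases c3' : s' = c3
      · subst c3'
        simp only [htc]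
        push_cast
        have : ∑ i, g i * ((t i j : ZMod p) * (l0 : ZMod p) ^ 2) =
            (∑ i, g i * (t i j : ZMod p)) * (l0 : ZMod p) ^ 2 := by
          rw [Finset.sum_mul]
          exact Finset.sum_congr rfl fun i _ => by ring
        rw [this, hT, zero_mul]
      refine Finset.sum_eq_zero fun i _ => ?_
      rw [hts i j s' c1 c2 c3']; simp
    · refine Finset.sum_eq_zero fun i _ => ?_
      rw [htj]; simp
  have hY : LinearIndependent (ZMod p) (fun i => cuv p (y i)) := by
    rw [Fintype.linearIndependent_iff] at hyi ⊢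
    intro g hg
    apply hyi
    funext c
    rw [Finset.sum_apply]
    simp only [Pi.smul_apply, smul_eq_mul, redv, Pi.zero_apply]
    rcases c with ⟨j, s'⟩ | j
    · by_cases c1 : s' = u3
      · subst c1
        have e1 := congrFun hg (Sum.inl j)
        simpa only [Finset.sum_apply, Pi.smul_apply, smul_eq_mul, cuv, Pi.zero_apply] using e1
      by_cases c2 : s' = v3
      · subst c2
        have e1 := congrFun hg (Sum.inr j)
        simpa only [Finset.sum_apply, Pi.smul_apply, smul_eq_mul, cuv, Pi.zero_apply] using e1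
      refine Finset.sum_eq_zero fun i _ => ?_
      rw [hys i j s' c1 c2]; simp
    · refine Finset.sum_eq_zero fun i _ => ?_
      rw [hyr]; simp
  have hcard : Fintype.card (Fin k ⊕ Fin k) + 2 ≤ r + s := by
    rw [Fintype.card_sum, Fintype.card_fin]
    omega
  obtain ⟨i, i', j, j', hne⟩ := minor_ne _ _ hX hY hcard
  refine ⟨![x i, x i'], ![y j, y j'], ?_, ?_, ?_⟩
  · intro a
    fin_cases a
    · exact hx i
    · exact hx i'
  · intro a
    fin_cases a
    · exact hy j
    · exact hy j'
  · intro hdiv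
    apply hne
    rw [← ZMod.intCast_zmod_eq_zero_iff_dvd, Matrix.det_fin_two] at hdiv
    simp only [Matrix.of_apply, Matrix.cons_val_zero, Matrix.cons_val_one] at hdiv
    rw [Int.cast_sub, Int.cast_mul, Int.cast_mul, form_eq p m0 m1 (hts i),
      form_eq p m0 m1 (hts i'), form_eq p m0 m1 (hts i), form_eq p m0 m1 (hts i')] at hdiv
    exact hdiv

end Pool.Agent.SBG.H41
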