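import Pool.Agent.Helper41_SBG.RPA

/-!
RPB: a sublattice on which the form is divisible by `g` has large index.
-/

namespace Pool.Agent.SBG.H41

open Pool.Agent.SBG Sy

/-- A sublattice of finite index is the image of an integer matrix of determinant the index. -/
lemma exists_matrix {κ : Type} [Fintype κ] [DecidableEq κ] (U : AddSubgroup (κ → ℤ))
    (hU : U.index ≠ 0) :
    ∃ M : Matrix κ κ ℤ, M.det.natAbs = U.index ∧ ∀ j, (fun i => M i j) ∈ U := by
  set N : Submodule ℤ (κ → ℤ) := AddSubgroup.toIntSubmodule U with hN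
  have hfr : Module.finrank ℤ (κ → ℤ) = Module.finrank ℤ N := by
    apply le_antisymm
    · let f : (κ → ℤ) →ₗ[ℤ] N :=
        { toFun := fun x => ⟨U.index • x, by
            have : U.FiniteIndex := ⟨hU⟩
            exact U.nsmul_index_mem x⟩
          map_add' := fun x y => Subtype.ext (smul_add _ _ _)
          map_smul' := fun a x => Subtype.ext (by
            change U.index • a • x = a • U.index • x
            rw [smul_comm]) }
      have hf : Function.Injective f := by
        intro x y hxy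
        have h1 : U.index • x = U.index • y := congrArg Subtype.val hxy
        funext i
        have h2 := congrFun h1 i
        simp only [Pi.smul_apply, nsmul_eq_mul] at h2
        exact mul_left_cancel₀ (by exact_mod_cast hU) h2
      exact LinearMap.finrank_le_finrank_of_injective hf
    · exact Submodule.finrank_le N
  let e : (κ → ℤ) ≃ₗ[ℤ] N := LinearEquiv.ofFinrankEq _ _ hfr
  have h1 := Submodule.natAbs_det_equiv N e
  set T : (κ → ℤ) →ₗ[ℤ] (κ → ℤ) := N.subtype ∘ₗ AddMonoidHom.toIntLinearMap (e : (κ → ℤ) →+ N)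
    with hT
  refine ⟨LinearMap.toMatrix' T, ?_, ?_⟩
  · rw [LinearMap.det_toMatrix']
    exact h1
  · intro j
    have h2 : (fun i => LinearMap.toMatrix' T i j) = T (Pi.single j 1) := by
      funext i
      rw [LinearMap.toMatrix'_apply]
    rw [h2]
    exact (e (Pi.single j 1)).2

/-- The determinant of the Gram matrix of two isotropic pairs. -/
lemma det_anti (B C : Matrix (Fin 2) (Fin 2) ℤ) (p : ℤ) (hp : Prime p) (hB : ¬ p ∣ B.det)
    (hC : ¬ p ∣ C.det) : ¬ p ∣ (Matrix.fromBlocks 0 B C 0).det := by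
  intro h
  have h1 : (Matrix.fromBlocks 0 B C 0) *
      (Matrix.fromBlocks 0 1 1 0 : Matrix (Fin 2 ⊕ Fin 2) (Fin 2 ⊕ Fin 2) ℤ) =
      Matrix.fromBlocks B 0 0 C := by
    rw [Matrix.fromBlocks_multiply]
    simp
  have h2 := congrArg Matrix.det h1
  rw [Matrix.det_mul, Matrix.det_fromBlocks_zero₁₂] at h2
  have h3 : p ∣ B.det * C.det := by
    rw [← h2]
    exact h.mul_right _
  rcases hp.dvd_or_dvd h3 with h4 | h4
  · exact hB h4
  · exact hC h4

/-- The form. -/
def fm {k : ℕ} (m0 m1 : ℤ) (x y : V k) : ℤ := m0 * bf0 x y + m1 * bf1 x y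

lemma bf0_smul_left {R : Type*} [CommRing R] {k : ℕ} (a : R) (x y : Ix k → R) :
    bf0 (a • x) y = a * bf0 x y := by
  rw [bf0, bf0, Finset.mul_sum]
  refine Finset.sum_congr rfl fun i _ => ?_
  simp only [be0, Pi.smul_apply, smul_eq_mul]
  ring

lemma bf1_smul_left {R : Type*} [CommRing R] {k : ℕ} (a : R) (x y : Ix k → R) :
    bf1 (a • x) y = a * bf1 x y := by
  rw [bf1, bf1, Finset.mul_sum]
  refine Finset.sum_congr rfl fun i _ => ?_
  simp only [be1, Pi.smul_apply, smul_eq_mul]
  ring

/-- The form as a bilinear map. -/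
def fml {k : ℕ} (m0 m1 : ℤ) : V k →ₗ[ℤ] V k →ₗ[ℤ] ℤ :=
  LinearMap.mk₂ ℤ (fm m0 m1)
    (fun x x' y => by rw [fm, fm, fm, bf0_add_left, bf1_add_left]; ring)
    (fun a x y => by
      rw [fm, fm, bf0_smul_left, bf1_smul_left, smul_eq_mul]; ring)
    (fun x y y' => by rw [fm, fm, fm, bf0_add_right, bf1_add_right]; ring)
    (fun a x y => by
      rw [fm, fm, bf0_swap (a • y) x, bf1_swap (a • y) x, bf0_smul_left, bf1_smul_left,
        bf0_swap x y, bf1_swap x y, smul_eq_mul]; ring)

lemma fml_apply {k : ℕ} (m0 m1 : ℤ) (x y : V k) : fml m0 m1 x y = fm m0 m1 x y := rfl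

lemma fm_sum {k : ℕ} {κ : Type} [Fintype κ] (m0 m1 : ℤ) (c d : κ → ℤ) (z : κ → V k) :
    fm m0 m1 (∑ r, c r • z r) (∑ s, d s • z s) =
      ∑ r, ∑ s, c r * fm m0 m1 (z r) (z s) * d s := by
  rw [← fml_apply]
  simp only [map_sum, LinearMap.sum_apply, map_smul, LinearMap.smul_apply, smul_eq_mul,
    fml_apply, Finset.mul_sum]
  rw [Finset.sum_comm]
  refine Finset.sum_congr rfl fun r _ => Finset.sum_congr rfl fun s _ => ?_
  ring

lemma fm_swap {k : ℕ} (m0 m1 : ℤ) (x y : V k) : fm m0 m1 y x = - fm m0 m1 x y := by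
  rw [fm, fm, bf0_swap x y, bf1_swap x y]; ring

/-- The form vanishes on the integer vectors of `Rad`. -/
lemma fm_rad {k : ℕ} {l0 l1 : ℤ} (m0 m1 : ℤ) (hl : IsCoprime l0 l1) {x y : V k}
    (hx : castv x ∈ Rad k l0 l1) (hy : castv y ∈ Rad k l0 l1) : fm m0 m1 x y = 0 := by
  obtain ⟨t, _, _, _, hts, _⟩ := rad_int hl hx
  obtain ⟨t', _, _, _, hts', _⟩ := rad_int hl hy
  have h0 : bf0 x y = 0 := by
    refine Finset.sum_eq_zero fun i _ => ?_
    simp only [be0]
    rw [hts i a1 (by decide) (by decide) (by decide), hts i u1 (by decide) (by decide) (by decide),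
      hts i a2 (by decide) (by decide) (by decide), hts i u2 (by decide) (by decide) (by decide),
      hts i u3 (by decide) (by decide) (by decide), hts i b1 (by decide) (by decide) (by decide),
      hts i v1 (by decide) (by decide) (by decide), hts i b2 (by decide) (by decide) (by decide),
      hts i v2 (by decide) (by decide) (by decide), hts i v3 (by decide) (by decide) (by decide),
      hts i yc (by decide) (by decide) (by decide), hts i qb (by decide) (by decide) (by decide),
      hts' i u3 (by decide) (by decide) (by decide), hts' i v3 (by decide) (by decide) (by decide)]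
    ring
  have h1 : bf1 x y = 0 := by
    refine Finset.sum_eq_zero fun i _ => ?_
    simp only [be1]
    rw [hts i c1 (by decide) (by decide) (by decide), hts i u1 (by decide) (by decide) (by decide),
      hts i c2 (by decide) (by decide) (by decide), hts i u2 (by decide) (by decide) (by decide),
      hts i u3 (by decide) (by decide) (by decide), hts i b1 (by decide) (by decide) (by decide),
      hts i v1 (by decide) (by decide) (by decide), hts i b2 (by decide) (by decide) (by decide),
      hts i v2 (by decide) (by decide) (by decide), hts i v3 (by decide) (by decide) (by decide),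
      hts i yc (by decide) (by decide) (by decide), hts i qb (by decide) (by decide) (by decide),
      hts i yb (by decide) (by decide) (by decide), hts i qc (by decide) (by decide) (by decide),
      hts' i u3 (by decide) (by decide) (by decide), hts' i v3 (by decide) (by decide) (by decide)]
    ring
  rw [fm, h0, h1]; ring

/-- The form vanishes on the vectors with coordinates `u3`, `v3`. -/
lemma fm_uv {k : ℕ} (m0 m1 : ℤ) {x y : V k}
    (hx : castv x ∈ VS (fun c => isS u3 c ∨ isS v3 c))
    (hy : castv y ∈ VS (fun c => isS u3 c ∨ isS v3 c)) : fm m0 m1 x y = 0 := by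
  have key : ∀ z : V k, castv z ∈ VS (fun c => isS u3 c ∨ isS v3 c) →
      ∀ i s, s ≠ u3 → s ≠ v3 → z (Sum.inl (i, s)) = 0 := by
    intro z hz i s h1 h2
    have h3 := hz (Sum.inl (i, s)) (by
      rintro (⟨j', h5⟩ | ⟨j', h5⟩)
      · exact h1 (Prod.ext_iff.mp (Sum.inl.inj h5)).2
      · exact h2 (Prod.ext_iff.mp (Sum.inl.inj h5)).2)
    simp only [castv] at h3
    exact_mod_cast h3
  have hx' := key x hx
  have hy' := key y hy
  have h0 : bf0 x y = 0 := by
    refine Finset.sum_eq_zero fun i _ => ?_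
    simp only [be0]
    rw [hx' i a1 (by decide) (by decide), hx' i u1 (by decide) (by decide),
      hx' i a2 (by decide) (by decide), hx' i u2 (by decide) (by decide),
      hx' i a3 (by decide) (by decide), hx' i b1 (by decide) (by decide),
      hx' i v1 (by decide) (by decide), hx' i b2 (by decide) (by decide),
      hx' i v2 (by decide) (by decide), hx' i b3 (by decide) (by decide),
      hx' i yc (by decide) (by decide), hx' i qb (by decide) (by decide),
      hy' i a3 (by decide) (by decide), hy' i b3 (by decide) (by decide)]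
    ring
  have h1 : bf1 x y = 0 := by
    refine Finset.sum_eq_zero fun i _ => ?_
    simp only [be1]
    rw [hx' i b1 (by decide) (by decide), hx' i u1 (by decide) (by decide),
      hx' i b2 (by decide) (by decide), hx' i u2 (by decide) (by decide),
      hx' i b3 (by decide) (by decide), hx' i c1 (by decide) (by decide),
      hx' i v1 (by decide) (by decide), hx' i c2 (by decide) (by decide),
      hx' i v2 (by decide) (by decide), hx' i c3 (by decide) (by decide),
      hx' i yc (by decide) (by decide), hx' i qb (by decide) (by decide),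
      hx' i yb (by decide) (by decide), hx' i qc (by decide) (by decide),
      hy' i b3 (by decide) (by decide), hy' i c3 (by decide) (by decide)]
    ring
  rw [fm, h0, h1]; ring

/-- The main step: prime powers. -/
lemma rpb_prime (hrpa : RpaStmt) (k : ℕ) (l0 l1 : ℤ) (F L : AddSubgroup (V k)) (hk : 10 ≤ k)
    (hl : IsCoprime l0 l1) (hF : sat F = F) (h1 : k ≤ dm (LQ F ⊓ Rad k l0 l1) + 4)
    (h2 : 2 * k ≤ dm (LQ F ⊓ VS fun c => isS u3 c ∨ isS v3 c) + 4)
    (hN : L.relIndex F ≠ 0) (m0 m1 : ℤ) (hm : m0 * l1 - m1 * l0 = 1)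
    (g : ℕ) (hg : ∀ x ∈ L, ∀ y ∈ L, (g : ℤ) ∣ m0 * bf0 x y + m1 * bf1 x y)
    (p a : ℕ) (hp : p.Prime) (ha : p ^ a ∣ g) : p ^ (2 * a) ∣ L.relIndex F := by
  obtain ⟨x, y, hx, hy, hdet⟩ := hrpa k l0 l1 F hk hl hF h1 h2 m0 m1 hm p hp
  let z : Fin 2 ⊕ Fin 2 → V k := Sum.elim x y
  let φl : (Fin 2 ⊕ Fin 2 → ℤ) →ₗ[ℤ] V k := Fintype.linearCombination ℤ z
  let φ : (Fin 2 ⊕ Fin 2 → ℤ) →+ V k := φl.toAddMonoidHom
  have hz : ∀ c, z c ∈ F := by
    rintro (i | j)
    · exact (hx i).1
    · exact (hy j).1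
  have hφF : φ.range ≤ F := by
    rintro _ ⟨c, rfl⟩
    change φl c ∈ F
    rw [Fintype.linearCombination_apply]
    exact AddSubgroup.sum_mem _ fun i _ => F.zsmul_mem (hz i) _
  have hidx : (L.comap φ).index ∣ L.relIndex F := by
    rw [AddSubgroup.index_comap, ← AddSubgroup.relIndex_addSubgroupOf hφF]
    exact AddSubgroup.relIndex_dvd_index_of_normal _ _
  have hU : (L.comap φ).index ≠ 0 := by
    intro h0
    rw [h0] at hidx
    exact hN (Nat.eq_zero_of_zero_dvd hidx)
  obtain ⟨M, hM, hMU⟩ := exists_matrix (L.comap φ) hU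
  refine dvd_trans ?_ hidx
  rw [← hM]
  -- the Gram matrix
  set G : Matrix (Fin 2 ⊕ Fin 2) (Fin 2 ⊕ Fin 2) ℤ := Matrix.of fun i j => fm m0 m1 (z i) (z j)
    with hG
  set B : Matrix (Fin 2) (Fin 2) ℤ := Matrix.of fun i j => m0 * bf0 (x i) (y j) +
    m1 * bf1 (x i) (y j) with hB
  have hGB : G = Matrix.fromBlocks 0 B (-B.transpose) 0 := by
    ext i j
    rcases i with i | i <;> rcases j with j | j
    · exact fm_rad m0 m1 hl (hx i).2 (hx j).2
    · rfl
    · exact fm_swap m0 m1 (x j) (y i)
    · exact fm_uv m0 m1 (hy i).2 (hy j).2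
  have hpz : Prime (p : ℤ) := Nat.prime_iff_prime_int.mp hp
  have hGdet : ¬ (p : ℤ) ∣ G.det := by
    rw [hGB]
    refine det_anti _ _ _ hpz hdet ?_
    rw [Matrix.det_neg, Matrix.det_transpose, Fintype.card_fin]
    simpa using hdet
  have hent : ∀ i j, ((p ^ a : ℕ) : ℤ) ∣ (M.transpose * G * M) i j := by
    intro i j
    have e : (M.transpose * G * M) i j =
        fm m0 m1 (φl fun r => M r i) (φl fun r => M r j) := by
      rw [Fintype.linearCombination_apply, Fintype.linearCombination_apply, fm_sum,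
        Matrix.mul_apply]
      simp only [Matrix.mul_apply, Matrix.transpose_apply, hG, Matrix.of_apply, Finset.sum_mul]
      rw [Finset.sum_comm]
    rw [e]
    exact (Int.natCast_dvd_natCast.mpr ha).trans (hg _ (hMU i) _ (hMU j))
  choose H hH using hent
  have hmat : M.transpose * G * M = ((p ^ a : ℕ) : ℤ) • (Matrix.of H) := by
    ext i j
    rw [hH]; rfl
  have hd := congrArg Matrix.det hmat
  rw [Matrix.det_mul, Matrix.det_mul, Matrix.det_transpose, Matrix.det_smul] at hd
  have hc4 : Fintype.card (Fin 2 ⊕ Fin 2) = 4 := by simp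
  rw [hc4] at hd
  have hd2 : ((p : ℤ) ^ (2 * a)) ^ 2 ∣ M.det ^ 2 * G.det := by
    refine ⟨(Matrix.of H).det, ?_⟩
    have e1 : M.det ^ 2 * G.det = M.det * G.det * M.det := by ring
    rw [e1, hd]
    push_cast
    ring
  have hcop : IsCoprime (((p : ℤ) ^ (2 * a)) ^ 2) G.det := by
    apply IsCoprime.pow_left
    apply IsCoprime.pow_left
    exact (Prime.coprime_iff_not_dvd hpz).mpr hGdet
  have hd3 : ((p : ℤ) ^ (2 * a)) ^ 2 ∣ M.det ^ 2 := hcop.dvd_of_dvd_mul_right hd2
  have hd4 : (p : ℤ) ^ (2 * a) ∣ M.det := (Int.pow_dvd_pow_iff (by norm_num)).mp hd3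
  have hd5 := Int.natAbs_dvd_natAbs.mpr hd4
  rwa [Int.natAbs_pow, Int.natAbs_natCast] at hd5

/-- RPB -/
theorem rpb (hrpa : RpaStmt) : RpbStmt := by
  intro k l0 l1 F L hk hl hF h1 h2 _ hN m0 m1 hm g hg
  have key := rpb_prime hrpa k l0 l1 F L hk hl hF h1 h2 hN m0 m1 hm g hg
  rcases Nat.eq_zero_or_pos g with h0 | h0
  · exfalso
    have h3 := key 2 (L.relIndex F) Nat.prime_two (by rw [h0]; exact dvd_zero _)
    have h4 := Nat.le_of_dvd (Nat.pos_of_ne_zero hN) h3
    have h5 : L.relIndex F < 2 ^ (2 * L.relIndex F) :=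
      lt_of_lt_of_le Nat.lt_two_pow_self (Nat.pow_le_pow_right (by norm_num) (by omega))
    omega
  · rw [Nat.dvd_iff_prime_pow_dvd_dvd]
    intro p e hp he
    have h3 := key p (g.factorization p) hp (Nat.ordProj_dvd g p)
    refine dvd_trans (pow_dvd_pow p ?_) h3
    have h4 : e ≤ (g ^ 2).factorization p :=
      (hp.pow_dvd_iff_le_factorization (pow_ne_zero 2 h0.ne')).mp he
    rwa [Nat.factorization_pow, Finsupp.smul_apply, smul_eq_mul] at h4

end Pool.Agent.SBG.H41
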